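import Pool.Agent.W295.PR.Stm

set_option autoImplicit false

namespace Pool.Agent.W538.PR.FIBKK

open Pool.Agent.W295.PR

section
variable {Y C P : Type} [TopologicalSpace Y] [CommGroup C] [TopologicalSpace C] [Group P]
    [TopologicalSpace P] (E : Dyn Y C P)

theorem cont_ap (g : P) : Continuous (E.ap g) := by
  have h : Continuous fun y : Y => ((g, y) : P × Y) := Continuous.prodMk_right g
  exact E.ap_cont.comp h

theorem cont_ac (c : C) : Continuous (E.ac c) := by
  have h : Continuous fun y : Y => ((c, y) : C × Y) := Continuous.prodMk_right c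
  exact E.ac_cont.comp h

theorem cont_ac' (y : Y) : Continuous fun c : C => E.ac c y := by
  have h : Continuous fun c : C => ((c, y) : C × Y) := Continuous.prodMk_left y
  exact E.ac_cont.comp h

theorem closed_Om : IsClosed E.Om := isClosed_closure

theorem ap_Om (g : P) (y : Y) (hy : y ∈ E.Om) : E.ap g y ∈ E.Om := by
  have h : Set.MapsTo (E.ap g) (Set.range fun g : P => E.ap g E.w)
      (Set.range fun g : P => E.ap g E.w) := by
    rintro _ ⟨h, rfl⟩
    exact ⟨g * h, E.ap_mul g h E.w⟩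
  exact h.closure (cont_ap E g) hy

theorem ac_inv_ac (c : C) (y : Y) : E.ac c⁻¹ (E.ac c y) = y := by
  rw [← E.ac_mul, inv_mul_cancel, E.ac_one]

theorem ac_ac_inv (c : C) (y : Y) : E.ac c (E.ac c⁻¹ y) = y := by
  rw [← E.ac_mul, mul_inv_cancel, E.ac_one]

theorem stab (hM : E.MinP) (c : C) (y : Y) (hy : y ∈ E.Om) (hc : E.ac c y ∈ E.Om) :
    ∀ z ∈ E.Om, E.ac c z ∈ E.Om := by
  have hF : E.Om ∩ {z | E.ac c z ∈ E.Om} = E.Om := by
    refine hM _ Set.inter_subset_left ?_ ⟨y, hy, hc⟩ ?_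
    · exact (closed_Om E).inter ((closed_Om E).preimage (cont_ac E c))
    · rintro g z ⟨hz, hz'⟩
      refine ⟨ap_Om E g z hz, ?_⟩
      change E.ac c (E.ap g z) ∈ E.Om
      rw [← E.comm]
      exact ap_Om E g _ hz'
  intro z hz
  rw [← hF] at hz
  exact hz.2

end

theorem fib : S_Fib := by
  intro Y C P _ _ _ _ _ _ _ _ _ _ E hM y hy c hc
  have h1 := stab E hM c y hy hc
  have h2 := stab E hM c⁻¹ (E.ac c y) hc (by rw [ac_inv_ac]; exact hy)
  intro z
  refine ⟨h1 z, fun hz => ?_⟩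
  have h3 := h2 _ hz
  rw [ac_inv_ac] at h3
  exact h3

theorem kk : S_KK := by
  intro Y C P _ _ _ _ _ _ _ _ _ _ E hI
  refine ⟨{ carrier := E.KK, mul_mem' := ?_, one_mem' := ?_, inv_mem' := ?_ }, rfl, ?_, ?_, ?_⟩
  · intro c d hc hd y
    rw [E.ac_mul]
    exact (hd y).trans (hc _)
  · intro y
    rw [E.ac_one]
  · intro c hc y
    have h := hc (E.ac c⁻¹ y)
    rw [ac_ac_inv] at h
    exact h.symm
  · change IsClosed E.KK
    have h : E.KK = (⋂ y ∈ E.Om, {c | E.ac c y ∈ E.Om}) ∩ (⋂ y ∈ E.Om, {c | E.ac c⁻¹ y ∈ E.Om}) := by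
      ext c
      simp only [Set.mem_inter_iff, Set.mem_iInter, Set.mem_ofPred_eq]
      constructor
      · intro hc
        refine ⟨fun y hy => (hc y).1 hy, fun y hy => ?_⟩
        refine (hc _).2 ?_
        rw [ac_ac_inv]
        exact hy
      · rintro ⟨h1, h2⟩ y
        refine ⟨h1 y, fun hy => ?_⟩
        have h3 := h2 _ hy
        rw [ac_inv_ac] at h3
        exact h3
    rw [h]
    refine IsClosed.inter ?_ ?_
    · exact isClosed_biInter fun y _ => (closed_Om E).preimage (cont_ac' E y)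
    · exact isClosed_biInter fun y _ =>
        (closed_Om E).preimage ((cont_ac' E y).comp continuous_inv)
  · have hS : ∀ z, E.S z ∈ E.Om ↔ z ∈ E.Om := fun z =>
      ⟨fun h => by
        have := (hI _ h).2.2.2
        rwa [Homeomorph.symm_apply_apply] at this, fun h => (hI z h).2.2.1⟩
    intro c hc y
    have h1 : E.S (E.S.symm y) = y := E.S.apply_symm_apply y
    have h2 : E.ac (E.θ c) y = E.S (E.ac c (E.S.symm y)) := by
      rw [E.S_ac, h1]
    rw [h2, hS, ← hc (E.S.symm y), ← hS (E.S.symm y), h1]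
  · have hS : ∀ z, E.S z ∈ E.Om ↔ z ∈ E.Om := fun z =>
      ⟨fun h => by
        have := (hI _ h).2.2.2
        rwa [Homeomorph.symm_apply_apply] at this, fun h => (hI z h).2.2.1⟩
    intro c hc y
    rw [← hS (E.ac (E.θ' c) y), E.S_ac, E.θ_θ', ← hc (E.S y), hS]

end Pool.Agent.W538.PR.FIBKK
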